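import Pool.Agent.W262.TW.Stm

/-! TW-COMB: weights of the unlinked sets. -/

set_option autoImplicit false

namespace Pool.Agent.W563.TW

open Finset Pool.Agent.W262.RK Pool.Agent.W262.TW

variable {K : Type} [Fintype K] [DecidableEq K]

theorem abs_bb_le (Θ : K → ℕ → Finset (Finset K)) (a : K × Finset K) (p : ℕ) :
    |bb Θ a p| ≤ if a.1 ∈ a.2 then 0 else ((Θ a.1 p).card : ℝ) / 2 ^ (Fintype.card K - 1) := by
  unfold bb
  split_ifs with h
  · simp
  · rw [abs_div, abs_of_pos (by positivity : (0 : ℝ) < 2 ^ (Fintype.card K - 1))]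
    gcongr
    refine (Finset.abs_sum_le_sum_abs _ _).trans ?_
    refine (Finset.sum_le_card_nsmul _ _ 1 fun N _ => ?_).trans ?_
    · rw [abs_pow, abs_neg, abs_one, one_pow]
    · simp

omit [Fintype K] in
theorem unlinked {A : Finset (K × Finset K)} (hA : ∀ a ∈ A, ∀ c ∈ A, LK a c = LK c a)
    {a c : K × Finset K} (ha : a ∈ A) (hc : c ∈ A) (hne : a.1 ≠ c.1) :
    a.1 ∈ c.2 ↔ c.1 ∈ a.2 := by
  have h := hA a ha c hc
  unfold LK at h
  rw [decide_eq_decide] at h
  constructor
  · intro h1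
    exact (h.1 ⟨h1, hne⟩).1
  · intro h1
    exact (h.2 ⟨h1, hne.symm⟩).1

/-- the elements of `A` with `a.1 ∉ a.2` -/
def A0 (A : Finset (K × Finset K)) : Finset (K × Finset K) := A.filter fun a => a.1 ∉ a.2

theorem gen_bound (z Y : ℕ) (Θ : K → ℕ → Finset (Finset K)) (A : Finset (K × Finset K)) (N : ℕ)
    (hN : ∀ i, ((A0 A).filter fun a => a.1 = i).card ≤ N) :
    ∑ p ∈ PS z Y, (∑ a ∈ A, |bb Θ a p|) / p ≤
      ∑ i ∈ (A0 A).image Prod.fst, (N : ℝ) / 2 ^ (Fintype.card K - 1) *
        ∑ p ∈ PS z Y, ((Θ i p).card : ℝ) / p := by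
  have h1 : ∀ p, ∑ a ∈ A, |bb Θ a p| ≤ ∑ i ∈ (A0 A).image Prod.fst,
      (N : ℝ) / 2 ^ (Fintype.card K - 1) * ((Θ i p).card : ℝ) := by
    intro p
    calc ∑ a ∈ A, |bb Θ a p| ≤ ∑ a ∈ A, (if a.1 ∈ a.2 then 0 else
          ((Θ a.1 p).card : ℝ) / 2 ^ (Fintype.card K - 1)) :=
          Finset.sum_le_sum fun a _ => abs_bb_le Θ a p
      _ = ∑ a ∈ A0 A, ((Θ a.1 p).card : ℝ) / 2 ^ (Fintype.card K - 1) := by
          unfold A0
          rw [Finset.sum_filter]
          refine Finset.sum_congr rfl fun a _ => ?_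
          by_cases h : a.1 ∈ a.2
          · rw [if_pos h, if_neg (not_not.2 h)]
          · rw [if_neg h, if_pos h]
      _ = ∑ i ∈ (A0 A).image Prod.fst, ∑ a ∈ (A0 A).filter (fun a => a.1 = i),
            ((Θ a.1 p).card : ℝ) / 2 ^ (Fintype.card K - 1) :=
          (Finset.sum_fiberwise_of_maps_to (fun a ha => Finset.mem_image_of_mem _ ha) _).symm
      _ ≤ _ := by
          refine Finset.sum_le_sum fun i _ => ?_
          have h2 : ∑ a ∈ (A0 A).filter (fun a => a.1 = i),
              ((Θ a.1 p).card : ℝ) / 2 ^ (Fintype.card K - 1) =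
              ∑ a ∈ (A0 A).filter (fun a => a.1 = i),
                ((Θ i p).card : ℝ) / 2 ^ (Fintype.card K - 1) := by
            refine Finset.sum_congr rfl fun a ha => ?_
            rw [(Finset.mem_filter.1 ha).2]
          rw [h2, Finset.sum_const, nsmul_eq_mul]
          have h3 : (((A0 A).filter fun a => a.1 = i).card : ℝ) ≤ N := by exact_mod_cast hN i
          calc (((A0 A).filter fun a => a.1 = i).card : ℝ) *
                (((Θ i p).card : ℝ) / 2 ^ (Fintype.card K - 1))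
              ≤ N * (((Θ i p).card : ℝ) / 2 ^ (Fintype.card K - 1)) := by gcongr
            _ = _ := by ring
  calc ∑ p ∈ PS z Y, (∑ a ∈ A, |bb Θ a p|) / p
      ≤ ∑ p ∈ PS z Y, (∑ i ∈ (A0 A).image Prod.fst,
          (N : ℝ) / 2 ^ (Fintype.card K - 1) * ((Θ i p).card : ℝ)) / p := by
        refine Finset.sum_le_sum fun p _ => ?_
        gcongr
        exact h1 p
    _ = ∑ p ∈ PS z Y, ∑ i ∈ (A0 A).image Prod.fst,
          (N : ℝ) / 2 ^ (Fintype.card K - 1) * (((Θ i p).card : ℝ) / p) := by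
        refine Finset.sum_congr rfl fun p _ => ?_
        rw [Finset.sum_div]
        refine Finset.sum_congr rfl fun i _ => ?_
        ring
    _ = _ := by
        rw [Finset.sum_comm]
        refine Finset.sum_congr rfl fun i _ => ?_
        rw [Finset.mul_sum]

theorem comb0 : COMB0 := by
  intro K _ _ z Y Θ w hw _ hsum A hA
  set I' := (A0 A).image Prod.fst with hI'
  set r := I'.card with hr
  set k := Fintype.card K with hk
  have hrk : r ≤ k := by
    rw [hr, hk]
    exact Finset.card_le_univ _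
  have hN : ∀ i, ((A0 A).filter fun a => a.1 = i).card ≤ 2 ^ (k - r) := by
    intro i
    have h1 : (univ \ I').powerset.card = 2 ^ (k - r) := by
      rw [Finset.card_powerset, Finset.card_sdiff_of_subset (Finset.subset_univ _),
        Finset.card_univ]
    rw [← h1]
    refine Finset.card_le_card_of_injOn (fun a => a.2 \ I') (fun a _ => ?_) ?_
    · rw [Finset.mem_coe, Finset.mem_powerset]
      exact Finset.sdiff_subset_sdiff (Finset.subset_univ _) subset_rfl
    · rintro ⟨a1, S⟩ ha ⟨a2, S'⟩ hb hab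
      rw [Finset.mem_coe, Finset.mem_filter, A0, Finset.mem_filter] at ha hb
      obtain ⟨⟨haA, hai⟩, ha1⟩ := ha
      obtain ⟨⟨hbA, hbi⟩, hb1⟩ := hb
      simp only at ha1 hb1 hai hbi hab
      subst ha1
      subst hb1
      have hS : S = S' := by
        ext j
        by_cases hj : j ∈ I'
        · by_cases hja : j = a2
          · subst hja
            exact ⟨fun h => absurd h hai, fun h => absurd h hbi⟩
          · obtain ⟨c, hc, hcj⟩ := Finset.mem_image.1 hj
            have hcA : c ∈ A := (Finset.mem_filter.1 hc).1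
            have e1 := unlinked hA hcA haA (by rw [hcj]; exact hja)
            have e2 := unlinked hA hcA hbA (by rw [hcj]; exact hja)
            rw [hcj] at e1 e2
            exact e1.trans e2.symm
        · have e3 : j ∈ S \ I' ↔ j ∈ S' \ I' := by rw [hab]
          rw [Finset.mem_sdiff, Finset.mem_sdiff] at e3
          constructor
          · intro h
            exact (e3.1 ⟨h, hj⟩).1
          · intro h
            exact (e3.2 ⟨h, hj⟩).1
      rw [hS]
  refine (gen_bound z Y Θ A _ hN).trans ?_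
  have h2 : ∑ i ∈ I', ((2 ^ (k - r) : ℕ) : ℝ) / 2 ^ (k - 1) *
      ∑ p ∈ PS z Y, ((Θ i p).card : ℝ) / p ≤
      ∑ _i ∈ I', ((2 ^ (k - r) : ℕ) : ℝ) / 2 ^ (k - 1) * w := by
    refine Finset.sum_le_sum fun i _ => ?_
    gcongr
    exact hsum i
  refine h2.trans ?_
  rw [Finset.sum_const, nsmul_eq_mul, ← hr]
  have h3 : r * 2 ^ (k - r) ≤ 2 ^ (k - 1) := by
    rcases Nat.eq_zero_or_pos r with h0 | h0
    · rw [h0, zero_mul]
      exact Nat.zero_le _
    · have h4 : 2 ^ (k - 1) = 2 ^ (r - 1) * 2 ^ (k - r) := by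
        rw [← pow_add]
        congr 1
        omega
      rw [h4]
      apply Nat.mul_le_mul_right
      have : r - 1 < 2 ^ (r - 1) := Nat.lt_two_pow_self
      omega
  have h5 : ((r * 2 ^ (k - r) : ℕ) : ℝ) ≤ ((2 ^ (k - 1) : ℕ) : ℝ) := by exact_mod_cast h3
  push_cast at h5 ⊢
  have h6 : (0 : ℝ) < 2 ^ (k - 1) := by positivity
  calc (r : ℝ) * (2 ^ (k - r) / 2 ^ (k - 1) * w) = (r * 2 ^ (k - r)) / 2 ^ (k - 1) * w := by ring
    _ ≤ 2 ^ (k - 1) / 2 ^ (k - 1) * w := by gcongr
    _ = w := by rw [div_self h6.ne', one_mul]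

theorem comb1 : COMB1 := by
  intro K _ _ z Y Θ w hw _ hsum A hA hall
  have hN : ∀ i, ((A0 A).filter fun a => a.1 = i).card ≤ 1 := by
    intro i
    rw [Finset.card_le_one]
    rintro ⟨a1, S⟩ ha ⟨a2, S'⟩ hb
    rw [Finset.mem_filter, A0, Finset.mem_filter] at ha hb
    obtain ⟨⟨haA, hai⟩, ha1⟩ := ha
    obtain ⟨⟨hbA, hbi⟩, hb1⟩ := hb
    simp only at ha1 hb1 hai hbi
    subst ha1
    subst hb1
    have hS : S = S' := by
      ext j
      by_cases hja : j = a2
      · subst hja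
        exact ⟨fun h => absurd h hai, fun h => absurd h hbi⟩
      · obtain ⟨c, hcA, hcj⟩ := hall j
        have e1 := unlinked hA hcA haA (by rw [hcj]; exact hja)
        have e2 := unlinked hA hcA hbA (by rw [hcj]; exact hja)
        rw [hcj] at e1 e2
        exact e1.trans e2.symm
    rw [hS]
  refine (gen_bound z Y Θ A 1 hN).trans ?_
  have h6 : (0 : ℝ) < 2 ^ (Fintype.card K - 1) := by positivity
  calc ∑ i ∈ (A0 A).image Prod.fst, ((1 : ℕ) : ℝ) / 2 ^ (Fintype.card K - 1) *
        ∑ p ∈ PS z Y, ((Θ i p).card : ℝ) / p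
      ≤ ∑ i, ((1 : ℕ) : ℝ) / 2 ^ (Fintype.card K - 1) *
        ∑ p ∈ PS z Y, ((Θ i p).card : ℝ) / p := by
        refine Finset.sum_le_sum_of_subset_of_nonneg (Finset.subset_univ _) fun i _ _ => ?_
        positivity
    _ = (1 / 2 ^ (Fintype.card K - 1)) * ∑ i, ∑ p ∈ PS z Y, ((Θ i p).card : ℝ) / p := by
        rw [Finset.mul_sum]
        simp
    _ ≤ (1 / 2 ^ (Fintype.card K - 1)) * (w * 2 ^ (Fintype.card K - 1)) := by gcongr
    _ = w := by field_simp

end Pool.Agent.W563.TW
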